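import Pool.Agent.Y804.FM.Main

/-!
# Integral and pure outside `l`, but not de Rham

For every prime `l` and every number field `F` there is a continuous character of the absolute
Galois group of `F` with values in the algebraic closure of `ℚ_l` which is unramified, integral and
pure of weight one at every place not above `l`, but which is not de Rham at any place above `l`.
-/

set_option autoImplicit false

open NumberField Pool.Agent.Y804.FM

namespace Pool.Agent.Results.MP_395897_nt.HalfIntegralTwist

theorem result (l : ℕ) [Fact l.Prime] (F : Type) [Field F] [NumberField F] :
    ∃ ρ : Gal(AlgebraicClosure F/F) →* GL (Fin 1) (PadicAlgCl l),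
      Continuous ρ ∧ UnramifiedIntegralPure 1 ρ ∧
      Nonempty (AlgebraicClosure F →+* PadicAlgCl l) ∧
      ∀ ι : AlgebraicClosure F →+* PadicAlgCl l, ¬ IsDeRham ι ρ :=
  main l F

end Pool.Agent.Results.MP_395897_nt.HalfIntegralTwist
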